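import Mathlib
import Pool.Agent.H28.UAlg3

open MeasureTheory Filter Topology
open scoped ENNReal NNReal ComplexConjugate

noncomputable section

namespace Pool.Agent.Results.MP_a6f573_an.NoGreatest

open Pool.Agent.H28.UAlg

def m0 (b : Bool) : Measure T1 := bif b then wm 1 else m

def m1 (b : Bool) : Measure T1 := bif b then wm 1 + m else 0

lemma f0 (b : Bool) : IsFiniteMeasure (m0 b) := by
  cases b <;> simp only [m0, cond_true, cond_false] <;> infer_instance

lemma f1 (b : Bool) : IsFiniteMeasure (m1 b) := by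
  cases b <;> simp only [m1, cond_true, cond_false] <;> infer_instance

lemma fin0 : IsFiniteMeasure (glue m0) := by
  have := f0
  unfold glue
  infer_instance

lemma fin1 : IsFiniteMeasure (glue m1) := by
  have := f1
  unfold glue
  infer_instance

def mu : FiniteMeasure (PD Bool) := ⟨glue m0, fin0⟩

def nu : FiniteMeasure (PD Bool) := ⟨glue m1, fin1⟩

lemma int_bool {E : Type*} [NormedAddCommGroup E] [NormedSpace ℝ E] [SecondCountableTopology E]
    (μ : Bool → Measure T1) [IsFiniteMeasure (glue μ)] (F : PD Bool → E) (hF : Continuous F) :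
    ∫ s, F s ∂glue μ = ∫ θ, F (e true θ) ∂μ true + ∫ θ, F (e false θ) ∂μ false := by
  rw [← (hasSum_glue μ F (cint _ hF)).tsum_eq, tsum_fintype, Fintype.sum_bool]

lemma nu_mem : nu ∈ E (Alg Bool) mu := by
  have := fin0
  have := fin1
  constructor
  · change glue m1 ≪ glue m0
    rw [← Measure.ae_le_iff_absolutelyContinuous]
    intro P hP
    have h := (ae_glue m0 (· ∈ P)).1 hP true
    refine (ae_glue m1 (· ∈ P)).2 fun b => ?_
    cases b
    · simp [m1]
    · have hac : m ≪ wm 1 := withDensity_absolutelyContinuous'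
        (W_cont.measurable.const_mul 1).coe_nnreal_ennreal.aemeasurable
        (W_ae.mono fun θ hθ => by simpa using hθ)
      exact ae_add_measure_iff.2 ⟨h, hac.ae_le h⟩
  · intro f hf
    change ∫ s, f s ∂glue m0 = ∫ s, f s ∂glue m1
    rw [int_bool _ _ f.continuous, int_bool _ _ f.continuous]
    simp only [m0, m1, cond_true, cond_false, integral_zero_measure, add_zero]
    rw [integral_add_measure (cint _ (by fun_prop)) (cint _ (by fun_prop)), mean_A _ f hf,
      mean_A _ f hf]

lemma mu_mem : mu ∈ E (Alg Bool) mu := ⟨Measure.AbsolutelyContinuous.rfl, fun _ _ => rfl⟩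

def L (F : PD Bool → ℝ) : ℝ := ∫ θ, F (e true θ) ∂m - ∫ θ, F (e false θ) ∂m

def F0 : C(PD Bool, ℝ) := ⟨fun s => ‖(s true : ℂ)‖, by fun_prop⟩

lemma F0_t (θ : T1) : F0 (e true θ) = 1 := by
  simp only [F0, ContinuousMap.coe_mk, e_self, norm_f1]

lemma F0_f (θ : T1) : F0 (e false θ) = 0 := by
  simp only [F0, ContinuousMap.coe_mk, e_ne (show true ≠ false by simp), norm_zero]

def c (σ : FiniteMeasure (PD Bool)) : ℝ :=
  ∫ s, F0 s ∂(σ : Measure (PD Bool)) - ∫ s, F0 s ∂(mu : Measure (PD Bool))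

def P : Set (FiniteMeasure (PD Bool)) :=
  {σ | 0 ≤ c σ ∧ ∀ F : C(PD Bool, ℝ),
    ∫ s, F s ∂(σ : Measure (PD Bool)) = ∫ s, F s ∂(mu : Measure (PD Bool)) + c σ * L F}

lemma P_closed : IsClosed P := by
  have hc : Continuous c :=
    (FiniteMeasure.continuous_integral_continuousMap F0).sub continuous_const
  refine (isClosed_le continuous_const hc).inter ?_
  change IsClosed {σ : FiniteMeasure (PD Bool) | ∀ F : C(PD Bool, ℝ),
    ∫ s, F s ∂(σ : Measure (PD Bool)) = ∫ s, F s ∂(mu : Measure (PD Bool)) + c σ * L F}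
  rw [Set.setOf_forall]
  exact isClosed_iInter fun F => isClosed_eq (FiniteMeasure.continuous_integral_continuousMap F)
    (continuous_const.add (hc.mul continuous_const))

lemma E_sub : E (Alg Bool) mu ⊆ P := by
  rintro ν ⟨h1, h2⟩
  have := fin0
  have hd := decomp m0 ν h1
  set ν' := fun n : Bool => (ν : Measure (PD Bool)).comap (e n) with hν'
  have : IsFiniteMeasure (glue ν') := hd ▸ inferInstance
  have h3 : ∀ f ∈ Alg Bool, ∫ s, f s ∂glue m0 = ∫ s, f s ∂glue ν' := by
    intro f hf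
    rw [← hd]
    exact h2 f hf
  have hc := compare_real _ ν' h3
  set a := (ν' true).real Set.univ - (m0 true).real Set.univ with ha
  set b := (ν' false).real Set.univ - (m0 false).real Set.univ with hb
  have ha0 : 0 ≤ a := nonneg_of_thin 1 (ν' true) _ (hc true)
  have hab : a + b = 0 := by
    have h4 := h3 1 (Alg Bool).one_mem
    rw [int_bool _ _ (map_continuous _), int_bool _ _ (map_continuous _)] at h4
    simp only [ContinuousMap.one_apply, integral_const, Complex.real_smul, mul_one] at h4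
    have h5 : (m0 true).real Set.univ + (m0 false).real Set.univ =
        (ν' true).real Set.univ + (ν' false).real Set.univ := by exact_mod_cast h4
    linarith
  have key : ∀ F : C(PD Bool, ℝ),
      ∫ s, F s ∂(ν : Measure (PD Bool)) = ∫ s, F s ∂(mu : Measure (PD Bool)) + a * L F := by
    intro F
    change _ = ∫ s, F s ∂glue m0 + _
    rw [hd, int_bool _ _ F.continuous, int_bool _ _ F.continuous]
    have e1 := hc true (fun θ => F (e true θ)) (by fun_prop)
    have e2 := hc false (fun θ => F (e false θ)) (by fun_prop)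
    have : b = -a := by linarith
    rw [← ha] at e1
    rw [← hb, this] at e2
    unfold L
    linarith
  have hca : c ν = a := by
    unfold c
    rw [key F0]
    simp [L, F0_t, F0_f]
  rw [← hca] at ha0 key
  exact ⟨ha0, key⟩

lemma K_sub : K (Alg Bool) mu ⊆ P := closure_minimal E_sub P_closed

lemma c_nu : c nu = 1 := by
  have := fin0
  have := fin1
  change ∫ s, F0 s ∂glue m1 - ∫ s, F0 s ∂glue m0 = 1
  rw [int_bool _ _ F0.continuous, int_bool _ _ F0.continuous]
  simp [m0, m1, F0_t, F0_f, measureReal_add_apply]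

def tf (b : Bool) : C(PD Bool, ℂ) := coord b + algebraMap ℂ _ (1 / 4)

lemma tf_mem (b : Bool) : tf b ∈ Alg Bool :=
  (Alg Bool).add_mem (coord_mem b) ((Alg Bool).algebraMap_mem _)

lemma tf_self (b : Bool) (θ : T1) : 3 / 4 ≤ ‖tf b (e b θ)‖ := by
  have h1 : tf b (e b θ) = fourier 1 θ - (-(1 / 4)) := by
    rw [← e_self b θ]
    simp [tf, coord]
  have h2 := norm_sub_norm_le (fourier 1 θ) (-(1 / 4) : ℂ)
  rw [norm_f1] at h2
  rw [h1]
  norm_num at h2 ⊢
  exact h2

lemma tf_ne {b j : Bool} (h : b ≠ j) (θ : T1) : ‖tf b (e j θ)‖ = 1 / 4 := by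
  have h1 : tf b (e j θ) = 0 + 1 / 4 := by
    rw [← e_ne h θ]
    simp [tf, coord]
  rw [h1]
  norm_num

lemma tf_ge (b j : Bool) (θ : T1) : 1 / 4 ≤ ‖tf b (e j θ)‖ := by
  by_cases h : b = j
  · subst h
    linarith [tf_self b θ]
  · exact (tf_ne h θ).ge

def G (b : Bool) : C(PD Bool, ℝ) := ⟨fun s => Real.log (max (1 / 4) ‖tf b s‖),
  Continuous.log (by fun_prop) fun s => (lt_of_lt_of_le (by norm_num) (le_max_left _ _)).ne'⟩

lemma logInt_P (σ : FiniteMeasure (PD Bool)) (hσ : σ ∈ P) (b : Bool) :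
    logInt σ (tf b) = ((∫ s, G b s ∂(mu : Measure (PD Bool)) + c σ * L (G b) : ℝ) : EReal) := by
  have := fin0
  rw [← hσ.2 (G b)]
  refine logInt_eq σ (tf b) (1 / 4) (by norm_num) ?_
  set H : C(PD Bool, ℝ) := ⟨fun s => max 0 (1 / 4 - ‖tf b s‖), by fun_prop⟩ with hH
  have hz : ∀ j θ, H (e j θ) = 0 := fun j θ => max_eq_left (by linarith [tf_ge b j θ])
  have h1 := hσ.2 H
  have h2 : ∫ s, H s ∂(mu : Measure (PD Bool)) = 0 := by
    change ∫ s, H s ∂glue m0 = 0
    rw [int_bool _ _ H.continuous]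
    simp [hz]
  have h3 : L H = 0 := by simp [L, hz]
  rw [h2, h3, mul_zero, add_zero,
    integral_eq_zero_iff_of_nonneg (f := fun s => H s) (fun s => le_max_left _ _)
      (cint _ H.continuous)] at h1
  filter_upwards [h1] with s hs
  have : max 0 (1 / 4 - ‖tf b s‖) = 0 := hs
  linarith [le_max_right 0 (1 / 4 - ‖tf b s‖)]

lemma G_gap {b j : Bool} (h : b ≠ j) : ∫ θ, G b (e j θ) ∂m < ∫ θ, G b (e b θ) ∂m := by
  have h1 : ∀ θ, G b (e j θ) = Real.log (1 / 4) := fun θ => by
    simp only [G, ContinuousMap.coe_mk, tf_ne h, max_self]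
  have h2 : ∫ _ : T1, Real.log (3 / 4) ∂m ≤ ∫ θ, G b (e b θ) ∂m :=
    integral_mono (integrable_const _) (cint _ (by fun_prop)) fun θ =>
      Real.log_le_log (by norm_num) ((tf_self b θ).trans (le_max_right _ _))
  simp only [h1, integral_const, probReal_univ, smul_eq_mul, one_mul] at h2 ⊢
  exact (Real.log_lt_log (by norm_num) (by norm_num)).trans_le h2

lemma no_greatest (M : Set (FiniteMeasure (PD Bool))) (h1 : E (Alg Bool) mu ⊆ M) (h2 : M ⊆ P) :
    ¬ ∃ σ, Greatest (Alg Bool) M σ := by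
  rintro ⟨σ, hσ, h⟩
  have a1 := h mu (h1 mu_mem) _ (tf_mem false)
  have a2 := h nu (h1 nu_mem) _ (tf_mem true)
  rw [logInt_P _ (E_sub mu_mem), logInt_P _ (h2 hσ), EReal.coe_le_coe_iff] at a1
  rw [logInt_P _ (E_sub nu_mem), logInt_P _ (h2 hσ), EReal.coe_le_coe_iff, c_nu] at a2
  have c0 : c mu = 0 := sub_self _
  rw [c0] at a1
  have l1 : 0 < L (G true) := sub_pos.2 (G_gap (by simp))
  have l2 : L (G false) < 0 := sub_neg.2 (G_gap (by simp))
  have b1 : c σ ≤ 0 := by nlinarith
  nlinarith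

theorem result :
    ∃ (S : Type) (_ : TopologicalSpace S) (_ : CompactSpace S) (_ : T2Space S)
      (_ : MeasurableSpace S) (_ : BorelSpace S) (A : Subalgebra ℂ C(S, ℂ)) (μ : FiniteMeasure S),
      Good A ∧ μ ∈ (K A μ).extremePoints ℝ≥0 ∧
      (¬ ∃ σ, Greatest A (K A μ) σ) ∧ (¬ ∃ σ, Greatest A (E A μ) σ) := by
  refine ⟨PD Bool, inferInstance, inferInstance, inferInstance, inferInstance, inferInstance,
    Alg Bool, mu, good, ?_, no_greatest _ subset_closure K_sub, no_greatest _ subset_rfl E_sub⟩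
  rw [mem_extremePoints_iff_left]
  refine ⟨subset_closure mu_mem, ?_⟩
  rintro x hx y hy ⟨a, b, ha, hb, hab, hxy⟩
  have hx' := K_sub hx
  have hy' := K_sub hy
  have h1 : ∫ s, F0 s ∂(mu : Measure (PD Bool)) =
      a * ∫ s, F0 s ∂(x : Measure (PD Bool)) + b * ∫ s, F0 s ∂(y : Measure (PD Bool)) := by
    rw [← hxy, FiniteMeasure.toMeasure_add, integral_add_measure (cint _ F0.continuous)
      (cint _ F0.continuous), FiniteMeasure.toMeasure_smul, FiniteMeasure.toMeasure_smul,
      integral_smul_nnreal_measure, integral_smul_nnreal_measure]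
    rfl
  have hab' : (a : ℝ) + b = 1 := by exact_mod_cast hab
  have ha' : (0 : ℝ) < a := ha
  have hb' : (0 : ℝ) < b := hb
  have h2 : (a : ℝ) * c x + b * c y = 0 := by
    unfold c
    linear_combination -h1 - (∫ s, F0 s ∂(mu : Measure (PD Bool))) * hab'
  have h3 : c x = 0 := by
    have := mul_nonneg hb'.le hy'.1
    have := hx'.1
    nlinarith
  refine FiniteMeasure.ext_of_forall_integral_eq fun f => ?_
  have := hx'.2 f.toContinuousMap
  rw [h3, zero_mul, add_zero] at this
  exact this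

end Pool.Agent.Results.MP_a6f573_an.NoGreatest
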